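import Pool.Agent.Helper24.SignedSum.Final

/-!
# MP_be58d1_co: near-symmetric minimisers of signed sumsets in cyclic groups

For every finite cyclic group `G` all pairs `(m, h)` are determined for which `ρ_±(G, m, h)` is
attained by a near-symmetric `m`-subset of `G`.
-/

open SignedSum

namespace Pool.Agent.Results.MP_be58d1_co.Cyclic

universe w

lemma exists_ne_iff (G : Type w) [AddCommGroup G] [Fintype G] [DecidableEq G] [IsAddCyclic G]
    (k : ℕ) : (∃ a : G, -a ≠ a ∧ k • a = 0) ↔ 2 < Nat.gcd (Fintype.card G) k := by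
  have hn : 0 < Fintype.card G := Fintype.card_pos
  constructor
  · rintro ⟨a, ha, hk⟩
    have h1 : addOrderOf a ∣ Nat.gcd (Fintype.card G) k :=
      Nat.dvd_gcd addOrderOf_dvd_card (addOrderOf_dvd_of_nsmul_eq_zero hk)
    have h2 : 0 < Nat.gcd (Fintype.card G) k := Nat.gcd_pos_of_pos_left _ hn
    have h3 := Nat.le_of_dvd h2 h1
    have h4 : ¬ addOrderOf a ∣ 2 := by
      intro h
      apply ha
      have h5 := addOrderOf_dvd_iff_nsmul_eq_zero.1 h
      rw [two_nsmul] at h5
      exact neg_eq_of_add_eq_zero_left h5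
    have h5 := addOrderOf_pos a
    by_contra hle
    have h6 : addOrderOf a = 1 ∨ addOrderOf a = 2 := by omega
    rcases h6 with h | h <;> rw [h] at h4
    · exact h4 (one_dvd 2)
    · exact h4 dvd_rfl
  · intro hg
    obtain ⟨g, hgen⟩ := IsAddCyclic.exists_generator (α := G)
    have ho : addOrderOf g = Fintype.card G := by
      rw [addOrderOf_eq_card_of_forall_mem_zmultiples hgen, Nat.card_eq_fintype_card]
    obtain ⟨q, hq⟩ := Nat.gcd_dvd_left (Fintype.card G) k
    have hq0 : 0 < q := by
      rcases Nat.eq_zero_or_pos q with h | h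
      · rw [h, mul_zero] at hq; omega
      · exact h
    have hord : addOrderOf (q • g) = Nat.gcd (Fintype.card G) k := by
      have h7 : q ∣ addOrderOf g := by
        rw [ho]; exact Dvd.intro_left _ hq.symm
      have h8 := addOrderOf_nsmul_of_dvd hq0.ne' h7
      rw [h8, ho]
      nth_rewrite 1 [hq]
      exact Nat.mul_div_cancel _ hq0
    refine ⟨q • g, ?_, ?_⟩
    · intro h
      have h9 : 2 • (q • g) = 0 := by
        rw [two_nsmul]
        nth_rewrite 1 [← h]
        simp
      have h10 := addOrderOf_dvd_of_nsmul_eq_zero h9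
      rw [hord] at h10
      exact absurd (Nat.le_of_dvd (by norm_num) h10) (by omega)
    · rw [← addOrderOf_dvd_iff_nsmul_eq_zero, hord]
      exact Nat.gcd_dvd_right _ _

/-- **Complete answer for finite cyclic groups.** -/
theorem result (G : Type w) [AddCommGroup G] [Fintype G] [DecidableEq G] [IsAddCyclic G] :
    (∀ m h : ℕ, 2 ≤ m → m ≤ Fintype.card G → 1 ≤ h →
      (NearSymmAttains G m h ↔
        ∃ d, d ∣ Fintype.card G ∧ fd m h d = u (Fintype.card G) m h ∧ ¬ d ∣ m ∧
          (Odd m ∨ Odd (cdiv m d)))) ∧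
    (∀ h : ℕ, NearSymmAttains G 1 h ↔ 2 < Nat.gcd (Fintype.card G) (2 * h)) ∧
    (∀ m : ℕ, 1 ≤ m → m ≤ Fintype.card G →
      (NearSymmAttains G m 0 ↔ m < Fintype.card G ∧ 2 < Fintype.card G)) := by
  refine ⟨fun m h hm hmn hh => cyclic_iff hm hmn hh, fun h => ?_, fun m hm hmn => ?_⟩
  · rw [one_iff, exists_ne_iff]
  · rw [zero_iff hm hmn]
    have := exists_ne_iff G 0
    simp only [zero_nsmul, and_true, Nat.gcd_zero_right] at this
    rw [this]

end Pool.Agent.Results.MP_be58d1_co.Cyclic
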