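import Pool.Agent.Helper24.SignedSum.Three

/-!
# MP_be58d1_co: near-symmetric minimisers of signed sumsets in groups of exponent three

For every finite elementary abelian 3-group `G` all pairs `(m, h)` are determined for which
`ρ_±(G, m, h)` is attained by a near-symmetric `m`-subset of `G`.
-/

open SignedSum

namespace Pool.Agent.Results.MP_be58d1_co.ExponentThree

universe w

lemma neg_ne {G : Type w} [AddCommGroup G] (h3 : ∀ x : G, 3 • x = 0) {a : G} (ha : a ≠ 0) :
    -a ≠ a := by
  intro h
  apply ha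
  have h1 : a + a = 0 := by
    nth_rewrite 1 [← h]
    simp
  have h2 : 3 • a = a + a + a := by
    rw [succ_nsmul, two_nsmul]
  rw [h3 a, h1, zero_add] at h2
  exact h2.symm

lemma exists_nonzero {G : Type w} [AddCommGroup G] [Fintype G] (hn : 1 < Fintype.card G) :
    ∃ a : G, a ≠ 0 := by
  have := Fintype.one_lt_card_iff_nontrivial.1 hn
  exact exists_ne 0

/-- **Complete answer for finite elementary abelian 3-groups.** -/
theorem result (G : Type w) [AddCommGroup G] [Fintype G] [DecidableEq G]
    (h3 : ∀ x : G, 3 • x = 0) :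
    (∀ m : ℕ, 2 ≤ m → m ≤ Fintype.card G →
      (NearSymmAttains G m 0 ↔ m < Fintype.card G) ∧
      ¬ NearSymmAttains G m 1 ∧
      (NearSymmAttains G m 2 ↔ ∃ t, m < 3 ^ t ∧ 3 ^ t < 2 * m) ∧
      (∀ h, 3 ≤ h → (NearSymmAttains G m h ↔ ∀ t, m ≠ 3 ^ t))) ∧
    (∀ h : ℕ, NearSymmAttains G 1 h ↔ 1 < Fintype.card G ∧ 3 ∣ h) := by
  obtain ⟨r, hr⟩ := card_three _ G rfl h3
  rw [Nat.card_eq_fintype_card] at hr
  refine ⟨fun m hm hmn => ⟨?_, not_attains_one hm hmn, three_iff h3 hm hmn, fun h hh => ?_⟩,
    fun h => ?_⟩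
  · rw [zero_iff (by omega) hmn]
    constructor
    · exact fun h => h.1
    · intro h
      obtain ⟨a, ha⟩ := exists_nonzero (G := G) (by omega)
      exact ⟨h, a, neg_ne h3 ha⟩
  · rw [leastDiv_iff hm hmn (by omega) (u_eq_of_primes (by omega) hmn (by omega) ?_)]
    · constructor
      · rintro ⟨h1, -⟩ t rfl
        apply h1
        rw [hr]
        rw [hr] at hmn
        exact pow_dvd_pow 3 ((Nat.pow_le_pow_iff_right (by norm_num)).1 hmn)
      · intro h1
        refine ⟨?_, Or.inr ?_⟩
        · intro h2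
          rw [hr] at h2
          obtain ⟨t, _, ht⟩ := (Nat.dvd_prime_pow Nat.prime_three).1 h2
          exact h1 t ht
        · intro s hs
          obtain ⟨h4, h5⟩ := leastDiv_spec hmn
          nth_rewrite 2 [hr] at h4
          obtain ⟨t, _, ht⟩ := (Nat.dvd_prime_pow Nat.prime_three).1 h4
          rw [hs] at ht
          have ht0 : t ≠ 0 := by
            rintro rfl
            rw [hs, ht] at h5
            omega
          have h6 : 3 ∣ 2 ^ s := by rw [ht]; exact dvd_pow_self 3 ht0
          have h7 := Nat.prime_three.dvd_of_dvd_pow h6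
          omega
    · intro p hp hpn
      rw [hr] at hpn
      have := Nat.prime_three
      have h8 := (Nat.prime_dvd_prime_iff_eq hp Nat.prime_three).1 (hp.dvd_of_dvd_pow hpn)
      omega
  · rw [one_iff]
    constructor
    · rintro ⟨a, ha, hk⟩
      have ha0 : a ≠ 0 := by
        rintro rfl
        simp at ha
      have ho : addOrderOf a = 3 := by
        have h5 : addOrderOf a ≠ 1 := fun h => ha0 (AddMonoid.addOrderOf_eq_one_iff.1 h)
        exact ((Nat.dvd_prime Nat.prime_three).1
          (addOrderOf_dvd_of_nsmul_eq_zero (h3 a))).resolve_left h5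
      refine ⟨Fintype.one_lt_card_iff_nontrivial.2 ⟨a, 0, ha0⟩, ?_⟩
      have h6 := addOrderOf_dvd_of_nsmul_eq_zero hk
      rw [ho] at h6
      rcases (Nat.Prime.dvd_mul Nat.prime_three).1 h6 with h7 | h7
      · omega
      · exact h7
    · rintro ⟨h1, k, rfl⟩
      obtain ⟨a, ha⟩ := exists_nonzero h1
      refine ⟨a, neg_ne h3 ha, ?_⟩
      rw [show 2 * (3 * k) = 3 * (2 * k) by ring, mul_nsmul, h3, nsmul_zero]

end Pool.Agent.Results.MP_be58d1_co.ExponentThree
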