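import Pool.Agent.Helper24.SignedSum.Final

/-!
# MP_be58d1_co: near-symmetric minimisers of signed sumsets, all groups, large `h`

For every finite abelian group `G` of order `n` and all `2 ≤ m ≤ n`, `h ≥ 1` for which
`u(n, m, h)` is the least divisor `D(n, m) ≥ m` of `n` (in particular for all `h` that are at
least the largest prime factor of `n`, and for all `h ≥ 2` when `m > n / 2`), it is determined
whether `ρ_±(G, m, h)` is attained by a near-symmetric `m`-subset.
-/

open SignedSum

namespace Pool.Agent.Results.MP_be58d1_co.LargeH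

universe w

/-- **Complete answer for every finite abelian group and every `h` that is at least the largest
prime factor of `|G|`**, and more generally whenever `u(n, m, h) = D(n, m)`. -/
theorem result (G : Type w) [AddCommGroup G] [Fintype G] [DecidableEq G] (m h : ℕ)
    (hm : 2 ≤ m) (hmn : m ≤ Fintype.card G) (hh : 1 ≤ h)
    (H : (∀ p, p.Prime → p ∣ Fintype.card G → p ≤ h) ∨ (2 ≤ h ∧ Fintype.card G < 2 * m) ∨
      u (Fintype.card G) m h = leastDiv (Fintype.card G) m) :
    NearSymmAttains G m h ↔ ¬ m ∣ Fintype.card G ∧
      ((∃ x : G, addOrderOf x = 4) ∨ ∀ s : ℕ, leastDiv (Fintype.card G) m ≠ 2 ^ s) := by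
  apply leastDiv_iff hm hmn hh
  rcases H with H | ⟨H1, H2⟩ | H
  · exact u_eq_of_primes (by omega) hmn hh H
  · exact u_eq_of_large (by omega) hmn H1 H2
  · exact H

end Pool.Agent.Results.MP_be58d1_co.LargeH
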